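import Pool.Agent.W751.RR.Stm

/-!
# The roots are separated; no critical point close to a root (helper554, subtask RR-EV3)
-/

set_option autoImplicit false

open Polynomial Filter Topology MeasureTheory

namespace Pool.Agent.W554.RR

open Pool.Agent.W751.CD Pool.Agent.W751.RR

theorem noc : S_NOC := by
  intro N hN z hz c hc i
  by_contra hcon
  push Not at hcon
  have hN2 : (2 : ℝ) ≤ N := by exact_mod_cast hN
  have hN0 : (0 : ℝ) < N := by linarith
  set D : ℝ := 1 / (N : ℝ) ^ 2 - 1 / (N : ℝ) ^ 4 with hD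
  have hD0 : D = ((N : ℝ) ^ 2 - 1) / (N : ℝ) ^ 4 := by rw [hD]; field_simp
  have hDpos : 0 < D := by
    rw [hD0]
    apply div_pos _ (by positivity)
    nlinarith
  have hfar : ∀ j, j ≠ i → D ≤ ‖c - z j‖ := by
    intro j hj
    have h1 := hz i j hj.symm
    have h2 : ‖z i - z j‖ ≤ ‖c - z j‖ + ‖c - z i‖ := by
      have : z i - z j = (c - z j) - (c - z i) := by ring
      rw [this]; exact norm_sub_le _ _
    rw [hD]; linarith
  set G : ℂ[X] := ∏ j ∈ Finset.univ.erase i, (X - C (z j)) with hG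
  have hF : P z = (X - C (z i)) * G := by
    unfold P
    rw [hG, Finset.mul_prod_erase Finset.univ (fun j => X - C (z j)) (Finset.mem_univ i)]
  have hGc : G.eval c = ∏ j ∈ Finset.univ.erase i, (c - z j) := by
    rw [hG, eval_prod]
    simp
  have hGpos : 0 < ‖G.eval c‖ := by
    rw [hGc, norm_prod]
    refine Finset.prod_pos fun j hj => ?_
    exact hDpos.trans_le (hfar j (Finset.ne_of_mem_erase hj))
  have hG' : (derivative G).eval c =
      ∑ j ∈ Finset.univ.erase i, ∏ k ∈ (Finset.univ.erase i).erase j, (c - z k) := by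
    rw [hG, derivative_prod_finset, eval_finsetSum]
    refine Finset.sum_congr rfl fun j _ => ?_
    rw [eval_mul, eval_prod]
    simp
  have hG'n : ‖(derivative G).eval c‖ ≤ (N - 1) * (‖G.eval c‖ / D) := by
    rw [hG']
    have h1 : ∀ j ∈ Finset.univ.erase i,
        ‖∏ k ∈ (Finset.univ.erase i).erase j, (c - z k)‖ ≤ ‖G.eval c‖ / D := by
      intro j hj
      have h2 : G.eval c = (c - z j) * ∏ k ∈ (Finset.univ.erase i).erase j, (c - z k) := by
        rw [hGc, Finset.mul_prod_erase _ (fun j => c - z j) hj]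
      rw [h2, norm_mul, le_div_iff₀ hDpos, mul_comm]
      exact mul_le_mul_of_nonneg_right (hfar j (Finset.ne_of_mem_erase hj)) (norm_nonneg _)
    refine (norm_sum_le_of_le _ h1).trans (le_of_eq ?_)
    rw [Finset.sum_const, Finset.card_erase_of_mem (Finset.mem_univ i), Finset.card_univ,
      Fintype.card_fin, nsmul_eq_mul, Nat.cast_sub (by omega)]
    simp
  have h0 : G.eval c + (c - z i) * (derivative G).eval c = 0 := by
    rw [← hc, hF, derivative_mul]
    simp
  have h1 : ‖G.eval c‖ = ‖c - z i‖ * ‖(derivative G).eval c‖ := by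
    rw [← norm_mul, ← norm_neg]
    congr 1
    linear_combination -h0
  have h2 : ‖G.eval c‖ ≤ 1 / (N : ℝ) ^ 4 * ((N - 1) * (‖G.eval c‖ / D)) :=
    h1.le.trans (mul_le_mul hcon.le hG'n (norm_nonneg _) (by positivity))
  have h3 : 1 / (N : ℝ) ^ 4 * ((N - 1) * (‖G.eval c‖ / D)) = ‖G.eval c‖ / (N + 1) := by
    rw [hD0]
    have e1 : (N : ℝ) ^ 2 - 1 = (N - 1) * (N + 1) := by ring
    have e2 : (N : ℝ) - 1 ≠ 0 := by linarith
    rw [e1]
    field_simp
  rw [h3, le_div_iff₀ (by positivity)] at h2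
  nlinarith

lemma m1_prob {ρ : ℝ} (hρ : 0 < ρ) : IsProbabilityMeasure (m1 ρ) := by
  refine ⟨?_⟩
  unfold m1
  rw [Measure.smul_apply, Measure.restrict_apply_univ, smul_eq_mul]
  refine ENNReal.inv_mul_cancel ?_ ?_
  · exact (Metric.measure_closedBall_pos volume _ hρ).ne'
  · exact measure_closedBall_lt_top.ne

lemma m1_ball {ρ : ℝ} (hρ : 0 < ρ) (a : ℂ) {δ : ℝ} (hδ : 0 ≤ δ) :
    m1 ρ {b | ‖a - b‖ < δ} ≤ ENNReal.ofReal (δ ^ 2 / ρ ^ 2) := by
  unfold m1
  rw [Measure.smul_apply, smul_eq_mul]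
  have h1 : {b : ℂ | ‖a - b‖ < δ} = Metric.ball a δ := by
    ext b
    rw [Metric.mem_ball, dist_comm, dist_eq_norm]
    rfl
  rw [h1]
  refine (mul_le_mul_right (Measure.restrict_apply_le _ _) _).trans ?_
  rw [Complex.volume_ball, Complex.volume_closedBall]
  have hπ : (0 : ℝ) < Real.pi := Real.pi_pos
  have e1 : ∀ x : ℝ, 0 ≤ x → ENNReal.ofReal x ^ 2 * (NNReal.pi : ENNReal) =
      ENNReal.ofReal (x ^ 2 * Real.pi) := by
    intro x hx
    rw [ENNReal.ofReal_mul (by positivity), ENNReal.ofReal_pow hx]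
    congr 1
    rw [← NNReal.coe_real_pi, ENNReal.ofReal_coe_nnreal]
  rw [e1 ρ hρ.le, e1 δ hδ, ← ENNReal.ofReal_inv_of_pos (by positivity),
    ← ENNReal.ofReal_mul (by positivity)]
  refine ENNReal.ofReal_le_ofReal (le_of_eq ?_)
  field_simp

theorem ev3 : S_EV3 := by
  intro ρ hρ N hN
  have := m1_prob hρ
  have hN0 : (0 : ℝ) < N := by
    have : 0 < N := by omega
    exact_mod_cast this
  have hpair : ∀ i j : Fin N, i ≠ j →
      mN ρ N {z | ‖z i - z j‖ < 1 / (N : ℝ) ^ 2} ≤ ENNReal.ofReal (1 / (ρ ^ 2 * N ^ 4)) := by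
    intro i j hij
    have hind : ProbabilityTheory.iIndepFun (fun (k : Fin N) (z : Fin N → ℂ) => z k)
        (Measure.pi fun _ : Fin N => m1 ρ) :=
      ProbabilityTheory.iIndepFun_pi (μ := fun _ : Fin N => m1 ρ) (X := fun _ => id)
        (fun _ => aemeasurable_id)
    have h2 := (ProbabilityTheory.indepFun_iff_map_prod_eq_prod_map_map
      (measurable_pi_apply i).aemeasurable (measurable_pi_apply j).aemeasurable).1
      (hind.indepFun hij)
    have hmap : ∀ k : Fin N, (Measure.pi fun _ : Fin N => m1 ρ).map (fun z => z k) = m1 ρ :=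
      fun k => (measurePreserving_eval (fun _ : Fin N => m1 ρ) k).map_eq
    rw [hmap i, hmap j] at h2
    have hmeas : MeasurableSet {q : ℂ × ℂ | ‖q.1 - q.2‖ < 1 / (N : ℝ) ^ 2} :=
      measurableSet_lt (by fun_prop) measurable_const
    have h3 : mN ρ N {z | ‖z i - z j‖ < 1 / (N : ℝ) ^ 2} =
        ((m1 ρ).prod (m1 ρ)) {q : ℂ × ℂ | ‖q.1 - q.2‖ < 1 / (N : ℝ) ^ 2} := by
      rw [← h2, Measure.map_apply (by fun_prop) hmeas]
      rfl
    rw [h3, Measure.prod_apply hmeas]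
    calc ∫⁻ a, m1 ρ (Prod.mk a ⁻¹' {q : ℂ × ℂ | ‖q.1 - q.2‖ < 1 / (N : ℝ) ^ 2}) ∂(m1 ρ)
        ≤ ∫⁻ _, ENNReal.ofReal ((1 / (N : ℝ) ^ 2) ^ 2 / ρ ^ 2) ∂(m1 ρ) :=
          lintegral_mono fun a => m1_ball hρ a (by positivity)
      _ = ENNReal.ofReal (1 / (ρ ^ 2 * N ^ 4)) := by
          rw [lintegral_const, measure_univ, mul_one]
          congr 1
          field_simp
  have hsub : {z : Fin N → ℂ | ∃ i j, i ≠ j ∧ ‖z i - z j‖ < 1 / (N : ℝ) ^ 2} ⊆
      ⋃ q ∈ (Finset.univ : Finset (Fin N × Fin N)).filter (fun q => q.1 ≠ q.2),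
        {z | ‖z q.1 - z q.2‖ < 1 / (N : ℝ) ^ 2} := by
    rintro z ⟨i, j, hij, hz⟩
    simp only [Set.mem_iUnion]
    exact ⟨(i, j), by simp [hij], hz⟩
  refine (measure_mono hsub).trans ((measure_biUnion_finset_le _ _).trans ?_)
  calc ∑ q ∈ (Finset.univ : Finset (Fin N × Fin N)).filter (fun q => q.1 ≠ q.2),
        mN ρ N {z | ‖z q.1 - z q.2‖ < 1 / (N : ℝ) ^ 2}
      ≤ ∑ _q ∈ (Finset.univ : Finset (Fin N × Fin N)).filter (fun q => q.1 ≠ q.2),
        ENNReal.ofReal (1 / (ρ ^ 2 * N ^ 4)) :=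
        Finset.sum_le_sum fun q hq => hpair q.1 q.2 (Finset.mem_filter.1 hq).2
    _ ≤ (N * N : ℕ) • ENNReal.ofReal (1 / (ρ ^ 2 * N ^ 4)) := by
        rw [Finset.sum_const]
        refine nsmul_le_nsmul_left zero_le ?_
        refine (Finset.card_filter_le _ _).trans (le_of_eq ?_)
        rw [Finset.card_univ, Fintype.card_prod, Fintype.card_fin]
    _ = ENNReal.ofReal (1 / (ρ ^ 2 * N ^ 2)) := by
        rw [nsmul_eq_mul, ← ENNReal.ofReal_natCast, ← ENNReal.ofReal_mul (by positivity)]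
        congr 1
        push_cast
        field_simp

end Pool.Agent.W554.RR
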